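import Pool.Agent.helper22.GS.Spec

set_option autoImplicit false

namespace Pool.Agent.GS

open Module

theorem H1_tr {F K : Type} [Field F] [Field K] [Algebra F K] [Finite F] (r : ℕ) (σ : K)
    (h : HD F K r 1 σ) : ∃ σ' : F, algebraMap F K σ' = σ ∧ HD F F r 1 σ' ∧
      (IsSquare σ' ↔ IsSquare σ) := by
  have hbij : Function.Bijective (algebraMap F K) := by
    rw [Algebra.bijective_algebraMap_iff]
    exact (Subalgebra.bot_eq_top_iff_finrank_eq_one.2 h.rk).symm
  obtain ⟨σ', hσ'⟩ := hbij.2 σ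
  refine ⟨σ', hσ', ⟨inferInstance, finrank_self F, ?_, ?_⟩, ?_⟩
  · intro h0
    apply h.ne
    rw [← hσ', h0, map_zero]
  · intro M hM hM2 j c hj
    refine h.ord ((algebraMap F K).mapMatrix M) ?_ ?_ j (algebraMap F K c) ?_
    · rw [← RingHom.map_det, hM, map_one]
    · rw [← hσ']
      have : ((algebraMap F K).mapMatrix M).trace = algebraMap F K M.trace := by
        rw [Matrix.trace_fin_two, Matrix.trace_fin_two, map_add]
        rfl
      rw [this, hM2, map_add, map_ofNat]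
    · rw [← map_pow, hj]
      ext a b
      simp [Matrix.smul_apply, Matrix.one_apply]
      split_ifs <;> simp
  · constructor
    · rintro ⟨a, ha⟩
      exact ⟨algebraMap F K a, by rw [← hσ', ha, map_mul]⟩
    · rintro ⟨b, hb⟩
      obtain ⟨a, rfl⟩ := hbij.2 b
      refine ⟨a, hbij.1 ?_⟩
      rw [hσ', hb, map_mul]

theorem H1_nn {F : Type} [Field F] [Finite F] (a b : F) (ha : ¬ IsSquare a) (hb : ¬ IsSquare b) :
    IsSquare (a * b) := by
  classical
  have := Fintype.ofFinite F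
  have h0 : a * b ≠ 0 := by
    apply mul_ne_zero
    · rintro rfl
      exact ha ⟨0, by ring⟩
    · rintro rfl
      exact hb ⟨0, by ring⟩
  rw [← quadraticChar_one_iff_isSquare h0, map_mul,
    quadraticChar_neg_one_iff_not_isSquare.2 ha, quadraticChar_neg_one_iff_not_isSquare.2 hb]
  norm_num

theorem H1 (hA : HA_stmt) (hB : HB_stmt) : H1_stmt := by
  intro F _ _ r hr hr2 hD ν hν
  by_cases h2 : ringChar F = 2
  · obtain ⟨K, i1, i2, σ, hσ, _⟩ := hB (F := F) r 1 h2 hr hr2 hD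
    obtain ⟨σ', _, h3, _⟩ := H1_tr r σ hσ
    exact ⟨σ', h3, FiniteField.isSquare_of_char_two h2 _⟩
  · obtain ⟨⟨K, i1, i2, σ, hσ, hs⟩, K', i1', i2', τ, hτ, ht⟩ := hA (F := F) r 1 h2 hr hr2 hD
    by_cases hq : IsSquare ν
    · obtain ⟨σ', _, h3, h4⟩ := H1_tr r σ hσ
      exact ⟨σ', h3, (h4.2 hs).mul hq⟩
    · obtain ⟨σ', _, h3, h4⟩ := H1_tr r τ hτ
      exact ⟨σ', h3, H1_nn _ _ (fun h5 => ht (h4.1 h5)) hq⟩

end Pool.Agent.GS
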